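import Pool.Agent.W169.RT.Stm
import Pool.Agent.H855R2.SF.Dir

/-!
Project RT, part DET: the number of zeros in a fixed disc.
-/

set_option autoImplicit false

namespace Pool.Agent.W583.RT

open Complex Filter Topology Set Pool.Agent.W169.RT H370.DL H429.GP H855R2.SF

/-! ### The value at two -/

theorem low {N : ℕ} [NeZero N] (χ : DirichletCharacter ℂ N) :
    1 / 3 ≤ ‖DirichletCharacter.LFunction χ 2‖ := by
  have hs : 1 < (2 : ℂ).re := by norm_num
  rw [DirichletCharacter.LFunction_eq_LSeries χ hs]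
  have hsum : Summable (LSeries.term (fun n => χ n) 2) :=
    DirichletCharacter.LSeriesSummable_of_one_lt_re χ hs
  have h1 := hasSum_ite_sub_hasSum hsum.hasSum 1
  have h2 := hasSum_ite_sub_hasSum hasSum_zeta_two 1
  have e1 : LSeries.term (fun n => χ n) 2 1 = 1 := by
    rw [LSeries.term_of_ne_zero one_ne_zero]
    simp
  have h3 : ‖∑' n : ℕ, (if n = 1 then 0 else LSeries.term (fun n => χ n) 2 n)‖ ≤
      Real.pi ^ 2 / 6 - 1 / ((1 : ℕ) : ℝ) ^ 2 := by
    refine tsum_of_norm_bounded h2 fun n => ?_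
    by_cases hn : n = 1
    · rw [if_pos hn, if_pos hn, norm_zero]
    · rw [if_neg hn, if_neg hn]
      rcases Nat.eq_zero_or_pos n with h0 | h0
      · subst h0
        rw [LSeries.term_zero, norm_zero]
        positivity
      · rw [LSeries.term_of_ne_zero h0.ne', norm_div, Complex.norm_natCast_cpow_of_pos h0]
        have e2 : (n : ℝ) ^ (2 : ℂ).re = (n : ℝ) ^ 2 := by
          have : (2 : ℂ).re = ((2 : ℕ) : ℝ) := by norm_num
          rw [this, Real.rpow_natCast]
        rw [e2]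
        exact div_le_div_of_nonneg_right (DirichletCharacter.norm_le_one χ _) (by positivity)
  rw [h1.tsum_eq, e1] at h3
  have hpi : Real.pi ^ 2 / 6 - 1 / ((1 : ℕ) : ℝ) ^ 2 ≤ 2 / 3 := by
    have h4 : Real.pi ≤ 3.15 := Real.pi_lt_d2.le
    have h5 : 0 ≤ Real.pi := Real.pi_pos.le
    norm_num
    nlinarith
  have h6 : ‖(1 : ℂ)‖ ≤ ‖LSeries (fun n => χ n) 2‖ + ‖LSeries (fun n => χ n) 2 - 1‖ := by
    calc ‖(1 : ℂ)‖ = ‖LSeries (fun n => χ n) 2 - (LSeries (fun n => χ n) 2 - 1)‖ := by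
          congr 1
          ring
      _ ≤ _ := norm_sub_le _ _
  rw [norm_one] at h6
  have h7 : ‖LSeries (fun n => χ n) 2 - 1‖ ≤ 2 / 3 := h3.trans hpi
  linarith

/-! ### The polynomial bound -/

/-- the quotient of Gamma factors -/
noncomputable def qG (a s : ℂ) : ℂ := (Gammaℝ (s + a))⁻¹ * Gammaℝ (1 - s + a)

/-- the compact set on the left -/
def Kc : Set ℂ := Metric.closedBall 2 5 ∩ {s | s.re ≤ 1 / 2}

theorem Kc_compact : IsCompact Kc :=
  (isCompact_closedBall 2 5).inter_right (isClosed_le Complex.continuous_re continuous_const)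

theorem qG_cont {a : ℂ} (ha : 0 ≤ a.re) : ContinuousOn (qG a) Kc := by
  intro s hs
  apply ContinuousAt.continuousWithinAt
  unfold qG
  refine ContinuousAt.mul ?_ ?_
  · have h1 : ContinuousAt (fun s : ℂ => (Gammaℝ s)⁻¹) (s + a) :=
      differentiable_Gammaℝ_inv.continuous.continuousAt
    exact ContinuousAt.comp (f := fun s : ℂ => s + a) (g := fun s : ℂ => (Gammaℝ s)⁻¹) h1
      (by fun_prop)
  · have hre : 0 < (1 - s + a).re := by
      have h2 : s.re ≤ 1 / 2 := hs.2
      simp only [add_re, sub_re, one_re]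
      linarith
    have h1 : ContinuousAt Gammaℝ (1 - s + a) := by
      have h3 : ContinuousAt (fun s : ℂ => (Gammaℝ s)⁻¹) (1 - s + a) :=
        differentiable_Gammaℝ_inv.continuous.continuousAt
      have h4 := h3.inv₀ (inv_ne_zero (Gammaℝ_ne_zero_of_re_pos hre))
      have e : (fun s : ℂ => (Gammaℝ s)⁻¹)⁻¹ = Gammaℝ := by
        funext z
        simp
      rwa [e] at h4
    exact ContinuousAt.comp (f := fun s : ℂ => 1 - s + a) (g := Gammaℝ) h1 (by fun_prop)

theorem qG_bound : ∃ C : ℝ, 0 ≤ C ∧ ∀ a : ℂ, a = 0 ∨ a = 1 → ∀ s ∈ Kc, ‖qG a s‖ ≤ C := by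
  obtain ⟨C0, h0⟩ := Kc_compact.exists_bound_of_continuousOn (qG_cont (a := 0) (by simp))
  obtain ⟨C1, h1⟩ := Kc_compact.exists_bound_of_continuousOn (qG_cont (a := 1) (by simp))
  refine ⟨max (max C0 C1) 0, le_max_right _ _, ?_⟩
  rintro a (rfl | rfl) s hs
  · exact (h0 s hs).trans ((le_max_left _ _).trans (le_max_left _ _))
  · exact (h1 s hs).trans ((le_max_right _ _).trans (le_max_left _ _))

theorem norm_aux {s : ℂ} (hs : s ∈ Metric.closedBall (2 : ℂ) 5) :
    ‖s‖ ≤ 7 ∧ -3 ≤ s.re ∧ ‖1 - (starRingEnd ℂ) s‖ ≤ 8 := by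
  rw [mem_closedBall_iff_norm] at hs
  have h1 : ‖s‖ ≤ 7 := by
    have h2 : ‖s‖ ≤ ‖s - 2‖ + ‖(2 : ℂ)‖ := by
      calc ‖s‖ = ‖(s - 2) + 2‖ := by congr 1; ring
        _ ≤ _ := norm_add_le _ _
    have h3 : ‖(2 : ℂ)‖ = 2 := by simp
    linarith
  refine ⟨h1, ?_, ?_⟩
  · have h2 := Complex.abs_re_le_norm (s - 2)
    have h3 := (abs_le.1 (h2.trans hs)).1
    simp only [sub_re, re_ofNat] at h3
    linarith
  · calc ‖1 - (starRingEnd ℂ) s‖ ≤ ‖(1 : ℂ)‖ + ‖(starRingEnd ℂ) s‖ := norm_sub_le _ _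
      _ = 1 + ‖s‖ := by rw [norm_one, RCLike.norm_conj]
      _ ≤ 8 := by linarith

theorem poly_bound : ∃ C : ℝ, 1 ≤ C ∧ ∀ (N : ℕ) (_ : NeZero N) (χ : DirichletCharacter ℂ N),
    1 < N → χ.IsPrimitive → ∀ s ∈ Metric.closedBall (2 : ℂ) 5,
      ‖DirichletCharacter.LFunction χ s‖ ≤ C * (N : ℝ) ^ 5 := by
  obtain ⟨C1, hC1, hq⟩ := qG_bound
  refine ⟨32 * C1 + 28, by linarith, ?_⟩
  intro N _ χ hN hχ s hs
  have hχ1 : χ ≠ 1 := ne_one_of_prim hN hχ
  have hN2 : (2 : ℝ) ≤ N := by exact_mod_cast hN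
  have hN0 : (0 : ℝ) < N := by linarith
  obtain ⟨n1, n2, n3⟩ := norm_aux hs
  have hN5 : (N : ℝ) ≤ (N : ℝ) ^ 5 := by
    calc (N : ℝ) = (N : ℝ) ^ 1 := (pow_one _).symm
      _ ≤ (N : ℝ) ^ 5 := pow_le_pow_right₀ (by linarith) (by norm_num)
  rcases le_or_gt (1 / 2) s.re with hre | hre
  · have h1 := growth_right (χ := χ) hχ1 (s := s) (by linarith)
    have h2 : ((N : ℝ) + 1) / s.re ≤ 4 * N := by
      rw [div_le_iff₀ (by linarith)]
      nlinarith
    calc ‖DirichletCharacter.LFunction χ s‖ ≤ ‖s‖ * (((N : ℝ) + 1) / s.re) := h1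
      _ ≤ 7 * (4 * N) := mul_le_mul n1 h2 (by positivity) (by norm_num)
      _ = 28 * N := by ring
      _ ≤ 28 * (N : ℝ) ^ 5 := by linarith
      _ ≤ (32 * C1 + 28) * (N : ℝ) ^ 5 := by
          apply mul_le_mul_of_nonneg_right _ (by positivity)
          linarith
  · have hK : s ∈ Kc := ⟨hs, hre.le⟩
    have haa : aa χ = 0 ∨ aa χ = 1 := by
      unfold aa
      split_ifs
      · exact Or.inl rfl
      · exact Or.inr rfl
    have hfe := fe_dir (χ := χ) hN hχ s
    simp only [Finset.univ_unique, Finset.prod_singleton] at hfe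
    rw [map_neg, aa_conj, sub_neg_eq_add, sub_neg_eq_add] at hfe
    have hre2 : 0 < (1 - s + aa χ).re := by
      have := aa_re_nonneg (χ := χ)
      simp only [add_re, sub_re, one_re]
      linarith
    have hne := Gammaℝ_ne_zero_of_re_pos hre2
    have e1 : DirichletCharacter.LFunction χ s = DirichletCharacter.rootNumber χ *
        (N : ℂ) ^ (1 / 2 - s) * (starRingEnd ℂ) (DirichletCharacter.LFunction χ
          (1 - (starRingEnd ℂ) s)) * qG (aa χ) s := by
      calc DirichletCharacter.LFunction χ s = (DirichletCharacter.LFunction χ s *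
            (Gammaℝ (1 - s + aa χ))⁻¹) * Gammaℝ (1 - s + aa χ) := by
            rw [mul_assoc, inv_mul_cancel₀ hne, mul_one]
        _ = _ := by
            rw [hfe]
            unfold qG
            ring
    rw [e1, norm_mul, norm_mul, norm_mul, norm_rootNumber hχ, one_mul, RCLike.norm_conj,
      Complex.norm_natCast_cpow_of_pos (by omega)]
    have b1 : (N : ℝ) ^ ((1 : ℂ) / 2 - s).re ≤ (N : ℝ) ^ 4 := by
      have e2 : (N : ℝ) ^ 4 = (N : ℝ) ^ ((4 : ℕ) : ℝ) := (Real.rpow_natCast _ _).symm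
      rw [e2]
      apply Real.rpow_le_rpow_of_exponent_le (by linarith)
      simp only [sub_re, div_ofNat_re, one_re]
      push_cast
      linarith
    have hre3 : 1 / 2 ≤ (1 - (starRingEnd ℂ) s).re := by
      simp only [sub_re, one_re, conj_re]
      linarith
    have b2 : ‖DirichletCharacter.LFunction χ (1 - (starRingEnd ℂ) s)‖ ≤ 32 * N := by
      have h1 := growth_right (χ := χ) hχ1 (s := 1 - (starRingEnd ℂ) s) (by linarith)
      have h2 : ((N : ℝ) + 1) / (1 - (starRingEnd ℂ) s).re ≤ 4 * N := by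
        rw [div_le_iff₀ (by linarith)]
        nlinarith
      calc _ ≤ _ := h1
        _ ≤ 8 * (4 * N) := mul_le_mul n3 h2 (by positivity) (by norm_num)
        _ = 32 * N := by ring
    calc (N : ℝ) ^ ((1 : ℂ) / 2 - s).re *
          ‖DirichletCharacter.LFunction χ (1 - (starRingEnd ℂ) s)‖ * ‖qG (aa χ) s‖ ≤
        (N : ℝ) ^ 4 * (32 * N) * C1 :=
          mul_le_mul (mul_le_mul b1 b2 (norm_nonneg _) (by positivity)) (hq _ haa s hK)
            (norm_nonneg _) (by positivity)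
      _ = 32 * C1 * (N : ℝ) ^ 5 := by ring
      _ ≤ (32 * C1 + 28) * (N : ℝ) ^ 5 := by
          apply mul_le_mul_of_nonneg_right _ (by positivity)
          linarith

/-! ### The number of zeros -/

theorem order_shift (f : ℂ → ℂ) (s : ℂ) :
    analyticOrderNatAt (fun z => f (2 + z)) (s - 2) = analyticOrderNatAt f s := by
  unfold analyticOrderNatAt
  have h1 : AnalyticAt ℂ (fun z : ℂ => 2 + z) (s - 2) := by fun_prop
  have h2 : deriv (fun z : ℂ => 2 + z) (s - 2) ≠ 0 := by
    rw [deriv_const_add, deriv_id'']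
    exact one_ne_zero
  have h3 := analyticOrderAt_comp_of_deriv_ne_zero (f := f) h1 h2
  have e : (2 : ℂ) + (s - 2) = s := by ring
  rw [e] at h3
  have e2 : (f ∘ fun z : ℂ => 2 + z) = fun z => f (2 + z) := rfl
  rw [e2] at h3
  rw [h3]

theorem det (hJEN : S_JEN) : S_DET := by
  obtain ⟨C, hC, hb⟩ := poly_bound
  have hlog : 0 < Real.log (3 / 2) := Real.log_pos (by norm_num)
  have hlC : 0 ≤ Real.log (3 * C) := Real.log_nonneg (by linarith)
  refine ⟨(2 * Real.log (3 * C) + 5) / Real.log (3 / 2), by positivity, ?_⟩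
  intro N _ χ hχ hχ1 S hS
  have hN : 1 < N := by
    have h0 : N ≠ 0 := NeZero.ne N
    have h1 : N ≠ 1 := by
      rintro rfl
      exact hχ1 (DirichletCharacter.level_one χ)
    omega
  have hN2 : (2 : ℝ) ≤ N := by exact_mod_cast hN
  have hlN : 1 / 2 ≤ Real.log N := by
    have h1 := Real.log_two_gt_d9
    have h2 := Real.log_le_log (by norm_num) hN2
    linarith
  set g : ℂ → ℂ := fun z => DirichletCharacter.LFunction χ (2 + z) with hg
  have hgd : Differentiable ℂ g :=
    (DirichletCharacter.differentiable_LFunction hχ1).comp (by fun_prop)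
  have hg0 : g 0 = DirichletCharacter.LFunction χ 2 := by
    rw [hg]
    simp
  have hlow : 1 / 3 ≤ ‖g 0‖ := by
    rw [hg0]
    exact low χ
  have hne : g 0 ≠ 0 := by
    intro h
    rw [h, norm_zero] at hlow
    norm_num at hlow
  classical
  have key := hJEN g hgd 0 2 5 (C * (N : ℝ) ^ 5) (by norm_num) (by norm_num) (by simp)
    (fun z hz => hb N inferInstance χ hN hχ (2 + z) (by
      rw [mem_closedBall_iff_norm, add_sub_cancel_left, hz])) hne
    (S.image fun s => s - 2) (by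
      intro w hw
      obtain ⟨s, hs, rfl⟩ := Finset.mem_image.1 hw
      have h1 := hS s hs
      calc ‖s - 2‖ = ‖(s - 1 / 2) - 3 / 2‖ := by congr 1; ring
        _ ≤ ‖s - 1 / 2‖ + ‖(3 / 2 : ℂ)‖ := norm_sub_le _ _
        _ ≤ 1 / 2 + 3 / 2 := by
            have : ‖(3 / 2 : ℂ)‖ = 3 / 2 := by simp
            rw [this]
            linarith
        _ = 2 := by norm_num)
  have hsum : ∑ w ∈ S.image (fun s => s - 2), analyticOrderNatAt g w =
      ∑ s ∈ S, analyticOrderNatAt (DirichletCharacter.LFunction χ) s := by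
    rw [Finset.sum_image (fun a _ b _ h => sub_left_injective h)]
    exact Finset.sum_congr rfl fun s _ => order_shift _ s
  rw [hsum] at key
  set n := ∑ s ∈ S, analyticOrderNatAt (DirichletCharacter.LFunction χ) s with hn
  have hcast : ∑ s ∈ S, (analyticOrderNatAt (DirichletCharacter.LFunction χ) s : ℝ) = (n : ℝ) := by
    rw [hn]
    push_cast
    rfl
  rw [hcast]
  have h1 : (3 / 2 : ℝ) ^ n ≤ 3 * C * (N : ℝ) ^ 5 := by
    norm_num at key
    have h2 : 1 / 3 * (3 : ℝ) ^ n ≤ 2 ^ n * (C * (N : ℝ) ^ 5) :=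
      (mul_le_mul_of_nonneg_right hlow (by positivity)).trans key
    rw [div_pow, div_le_iff₀ (by positivity)]
    linarith
  have h2 := Real.log_le_log (by positivity) h1
  rw [Real.log_pow, Real.log_mul (by positivity) (by positivity), Real.log_pow] at h2
  rw [div_mul_eq_mul_div, le_div_iff₀ hlog]
  push_cast at h2
  nlinarith

end Pool.Agent.W583.RT
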