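import Pool.Agent.W307.RT.Stm
import Pool.Agent.W262.RK.Bas

/-!
TRK-FSB: sums over tuples of coprime divisors with characters as Euler products.
-/

set_option autoImplicit false

namespace Pool.Agent.W583.RT

open Finset Pool.Agent.W262.RK Pool.Agent.W307.RT

set_option linter.unusedSectionVars false

variable {ι : Type} [Fintype ι] [DecidableEq ι]

/-- the tuple of a map -/
noncomputable def dd (T : Finset ℕ) (x : T → Option ι) (i : ι) : ℕ :=
  ∏ p ∈ univ.filter (fun p : T => x p = some i), (p : ℕ)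

lemma prime_dvd_dd {T : Finset ℕ} (hT : ∀ p ∈ T, p.Prime) (x : T → Option ι) (i : ι) {p : ℕ}
    (hp : p.Prime) : p ∣ dd T x i ↔ ∃ h : p ∈ T, x ⟨p, h⟩ = some i := by
  unfold dd
  rw [hp.prime.dvd_finsetProd_iff]
  constructor
  · rintro ⟨a, ha, hpa⟩
    have h1 := (Nat.prime_dvd_prime_iff_eq hp (hT a.1 a.2)).1 hpa
    subst h1
    exact ⟨a.2, (mem_filter.1 ha).2⟩
  · rintro ⟨h, hx⟩
    exact ⟨⟨p, h⟩, mem_filter.2 ⟨mem_univ _, hx⟩, dvd_refl _⟩

lemma dd_ne_zero {T : Finset ℕ} (hT : ∀ p ∈ T, p.Prime) (x : T → Option ι) (i : ι) :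
    dd T x i ≠ 0 := by
  unfold dd
  exact prod_ne_zero_iff.2 fun a _ => (hT a.1 a.2).ne_zero

lemma dd_dvd (T : Finset ℕ) (x : T → Option ι) (i : ι) : dd T x i ∣ ∏ p ∈ T, p := by
  unfold dd
  rw [← prod_coe_sort T (fun p => p)]
  exact prod_dvd_prod_of_subset _ _ _ (subset_univ _)

/-- multiplicative functions on products of primes -/
lemma mul_prod {T : Finset ℕ} (g : ℕ → ℝ) (h1 : g 1 = 1)
    (hg : ∀ m n, m * n ∣ ∏ p ∈ T, p → g (m * n) = g m * g n) (S : Finset T) :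
    g (∏ p ∈ S, (p : ℕ)) = ∏ p ∈ S, g p := by
  classical
  induction S using Finset.induction_on with
  | empty => simpa using h1
  | insert a S ha ih =>
    rw [prod_insert ha, prod_insert ha, hg, ih]
    rw [← prod_insert ha, ← prod_coe_sort T (fun p => p)]
    exact prod_dvd_prod_of_subset _ _ _ (subset_univ _)

/-- the Euler product -/
theorem euler (T : Finset ℕ) (hT : ∀ p ∈ T, p.Prime) (W : Finset ι) (g : ι → ℕ → ℝ)
    (h1 : ∀ i ∈ W, g i 1 = 1)
    (hg : ∀ i ∈ W, ∀ m n, m * n ∣ ∏ p ∈ T, p → g i (m * n) = g i m * g i n)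
    (D : Finset (ι → ℕ))
    (hD : ∀ d, d ∈ D ↔ (∀ i, d i ∣ ∏ p ∈ T, p) ∧ (∀ i j, i ≠ j → (d i).Coprime (d j)) ∧
      ∀ i, i ∉ W → d i = 1) :
    ∑ d ∈ D, ∏ i ∈ W, g i (d i) = ∏ p ∈ T, (1 + ∑ i ∈ W, g i p) := by
  classical
  have hsqT : Squarefree (∏ p ∈ T, p) := by
    rw [Nat.squarefree_iff_prime_squarefree]
    intro p hp h
    have hmem : p ∈ T := by
      have h1 : p ∣ ∏ q ∈ T, q := (Dvd.intro _ rfl).trans h
      obtain ⟨q, hq, hpq⟩ := (hp.prime.dvd_finsetProd_iff _).1 h1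
      rwa [(Nat.prime_dvd_prime_iff_eq hp (hT q hq)).1 hpq]
    rw [← mul_prod_erase _ _ hmem] at h
    have h2 : p ∣ ∏ q ∈ T.erase p, q := Nat.dvd_of_mul_dvd_mul_left hp.pos h
    obtain ⟨q, hq, hpq⟩ := (hp.prime.dvd_finsetProd_iff _).1 h2
    have h3 := mem_erase.1 hq
    exact h3.1 ((Nat.prime_dvd_prime_iff_eq hp (hT q h3.2)).1 hpq).symm
  have hprT : ∀ p : ℕ, p.Prime → p ∣ ∏ q ∈ T, q → p ∈ T := by
    intro p hp h
    obtain ⟨q, hq, hpq⟩ := (hp.prime.dvd_finsetProd_iff _).1 h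
    rwa [(Nat.prime_dvd_prime_iff_eq hp (hT q hq)).1 hpq]
  set hh : T → Option ι → ℝ := fun p o => o.elim 1 (fun i => g i p) with hhh
  have e1 : ∏ p ∈ T, (1 + ∑ i ∈ W, g i p) =
      ∑ x ∈ Fintype.piFinset (fun _ : T => insertNone W), ∏ p : T, hh p (x p) := by
    rw [← prod_univ_sum, ← prod_coe_sort T (fun p => 1 + ∑ i ∈ W, g i p)]
    refine prod_congr rfl fun p _ => ?_
    rw [sum_insertNone]
    rfl
  rw [e1]
  symm
  refine sum_bij (fun x _ => dd T x) ?_ ?_ ?_ ?_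
  · intro x hx
    rw [Fintype.mem_piFinset] at hx
    rw [hD]
    refine ⟨fun i => dd_dvd T x i, fun i j hij => ?_, fun i hi => ?_⟩
    · refine Nat.coprime_of_dvd fun k hk h2 h3 => hij ?_
      obtain ⟨a, ha⟩ := (prime_dvd_dd hT x i hk).1 h2
      obtain ⟨b, hb⟩ := (prime_dvd_dd hT x j hk).1 h3
      rw [ha] at hb
      exact Option.some_injective _ hb
    · unfold dd
      rw [filter_eq_empty_iff.2, prod_empty]
      intro p _ hp
      have := hx p
      rw [hp, mem_insertNone] at this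
      exact hi (this i rfl)
  · intro x hx x' hx' hxx
    funext p
    have key : ∀ i, x p = some i ↔ x' p = some i := by
      intro i
      have h2 := prime_dvd_dd hT x i (hT p.1 p.2)
      have h3 := prime_dvd_dd hT x' i (hT p.1 p.2)
      have h4 : dd T x i = dd T x' i := congrFun hxx i
      rw [h4, h3] at h2
      constructor
      · intro h
        obtain ⟨_, h5⟩ := h2.2 ⟨p.2, h⟩
        exact h5
      · intro h
        obtain ⟨_, h5⟩ := h2.1 ⟨p.2, h⟩
        exact h5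
    exact Option.ext key
  · intro d hd
    obtain ⟨d1, d2, d3⟩ := (hD d).1 hd
    let x : T → Option ι := fun p => if h : ∃ i, (p : ℕ) ∣ d i then some h.choose else none
    have hx : ∀ (p : T) (i : ι), x p = some i ↔ (p : ℕ) ∣ d i := by
      intro p i
      constructor
      · intro h
        by_cases hex : ∃ i, (p : ℕ) ∣ d i
        · simp only [x, dif_pos hex, Option.some.injEq] at h
          rw [← h]
          exact hex.choose_spec
        · simp only [x, dif_neg hex] at h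
          exact absurd h (by simp)
      · intro h
        have hex : ∃ i, (p : ℕ) ∣ d i := ⟨i, h⟩
        simp only [x, dif_pos hex, Option.some.injEq]
        by_contra hne
        exact Nat.Prime.not_coprime_iff_dvd.2 ⟨p, hT p.1 p.2, hex.choose_spec, h⟩ (d2 _ _ hne)
    refine ⟨x, ?_, ?_⟩
    · rw [Fintype.mem_piFinset]
      intro p
      rw [mem_insertNone]
      intro i hi
      have h4 : (p : ℕ) ∣ d i := (hx p i).1 hi
      by_contra hW
      rw [d3 i hW] at h4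
      exact (hT p.1 p.2).one_lt.ne' (Nat.dvd_one.1 h4)
    · funext i
      show dd T x i = d i
      have hsq : Squarefree (d i) := hsqT.squarefree_of_dvd (d1 i)
      have hsq' : Squarefree (dd T x i) := hsqT.squarefree_of_dvd (dd_dvd T x i)
      rw [← Nat.prod_primeFactors_of_squarefree hsq, ← Nat.prod_primeFactors_of_squarefree hsq']
      congr 1
      ext p
      rw [Nat.mem_primeFactors, Nat.mem_primeFactors]
      constructor
      · rintro ⟨hp, h4, -⟩
        obtain ⟨h5, h6⟩ := (prime_dvd_dd hT x i hp).1 h4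
        exact ⟨hp, (hx ⟨p, h5⟩ i).1 h6, hsq.ne_zero⟩
      · rintro ⟨hp, h4, -⟩
        have h5 : p ∈ T := hprT p hp (h4.trans (d1 i))
        exact ⟨hp, (prime_dvd_dd hT x i hp).2 ⟨h5, (hx ⟨p, h5⟩ i).2 h4⟩, hsq'.ne_zero⟩
  · intro x hx
    rw [Fintype.mem_piFinset] at hx
    have h2 : ∀ p ∈ (univ : Finset T), x p ∈ insertNone W := fun p _ => hx p
    rw [← prod_fiberwise_of_maps_to h2, prod_insertNone]
    have h3 : ∏ p ∈ univ.filter (fun p : T => x p = none), hh p (x p) = 1 := by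
      refine prod_eq_one fun p hp => ?_
      rw [(mem_filter.1 hp).2]
      rfl
    rw [h3, one_mul]
    refine prod_congr rfl fun i hi => ?_
    unfold dd
    rw [mul_prod (g i) (h1 i hi) (hg i hi)]
    refine prod_congr rfl fun p hp => ?_
    rw [(mem_filter.1 hp).2]
    rfl

lemma exp_le_one_add {x : ℝ} (h0 : 0 ≤ x) (h1 : x ≤ 1) : Real.exp x ≤ 1 + 2 * x := by
  have h2 := Real.abs_exp_sub_one_le (x := x) (by rw [abs_of_nonneg h0]; exact h1)
  rw [abs_of_nonneg h0] at h2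
  have h3 := (abs_le.1 h2).2
  linarith

lemma tail_sq (z y : ℕ) (hz : 1 ≤ z) : ∑ p ∈ PS z y, 1 / (p : ℝ) ^ 2 ≤ 1 := by
  rcases Nat.lt_or_ge z y with h | h
  · have h1 : ∑ p ∈ PS z y, 1 / (p : ℝ) ^ 2 ≤ ∑ p ∈ Ioc z y, 1 / (p : ℝ) ^ 2 :=
      sum_le_sum_of_subset_of_nonneg (filter_subset _ _) (fun _ _ _ => by positivity)
    have h2 := sum_Ioc_inv_sq_le_sub (α := ℝ) (k := z) (n := y) (by omega) h.le
    simp only [one_div] at h1 ⊢
    have h3 : ((z : ℝ))⁻¹ ≤ 1 := inv_le_one_of_one_le₀ (by exact_mod_cast hz)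
    have h4 : (0 : ℝ) ≤ ((y : ℝ))⁻¹ := by positivity
    linarith
  · have : PS z y = ∅ := by
      unfold PS
      rw [Ioc_eq_empty (by omega)]
      rfl
    rw [this]
    simp

theorem fsb : Pool.Agent.W307.RT.FSB := by
  classical
  intro ι _ _ w c hw
  set n : ℕ := Fintype.card ι with hn
  refine ⟨2 * c + 2 * n + 2, n, fun z hz => ⟨Real.exp (n * c), Real.one_le_exp (by positivity), ?_⟩⟩
  intro y R W ψ φ B hzy hR hψ1 hψ hφ hψφ hB
  -- the primes
  set T : Finset ℕ := (PS z y).filter (fun p => ¬ p ∣ R) with hT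
  set T' : Finset ℕ := (PS z y).filter (fun p => p ∣ R) with hT'
  have hTp : ∀ p ∈ T, p.Prime := fun p hp => (mem_PS.1 (mem_filter.1 hp).1).2
  have hdvd : (∏ p ∈ T, p) ∣ PP z y := prod_dvd_prod_of_subset _ _ _ (filter_subset _ _)
  have hsq := PP_squarefree z y
  have hpr : ∀ p : ℕ, p.Prime → (p ∣ ∏ q ∈ T, q ↔ p ∈ T) := by
    intro p hp
    constructor
    · intro h
      obtain ⟨q, hq, hpq⟩ := (hp.prime.dvd_finsetProd_iff _).1 h
      rwa [(Nat.prime_dvd_prime_iff_eq hp (hTp q hq)).1 hpq]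
    · intro h
      exact dvd_prod_of_mem _ h
  -- divisors coprime to `R`
  have hcop : ∀ d : ℕ, (d ∣ PP z y ∧ d.Coprime R) ↔ d ∣ ∏ p ∈ T, p := by
    intro d
    constructor
    · rintro ⟨h1, h2⟩
      have hd := hsq.squarefree_of_dvd h1
      rw [← Nat.prod_primeFactors_of_squarefree hd]
      refine prod_dvd_prod_of_subset _ _ _ fun p hp => ?_
      have hp' := Nat.mem_primeFactors.1 hp
      rw [hT, mem_filter]
      refine ⟨(prime_dvd_PP hp'.1).1 (hp'.2.1.trans h1), fun h => ?_⟩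
      exact Nat.Prime.not_coprime_iff_dvd.2 ⟨p, hp'.1, hp'.2.1, h⟩ h2
    · intro h
      refine ⟨h.trans hdvd, Nat.coprime_of_dvd fun k hk h2 h3 => ?_⟩
      exact (mem_filter.1 ((hpr k hk).1 (h2.trans h))).2 h3
  have hE := euler T hTp W (fun i m => gw (w i) c m * ψ i m)
    (fun i hi => by rw [hψ1 i hi, gw_one, mul_one])
    (by
      intro i hi m k hmk
      have h1 := hmk.trans hdvd
      have h2 : m.Coprime k := Nat.coprime_of_squarefree_mul (hsq.squarefree_of_dvd h1)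
      show gw (w i) c (m * k) * ψ i (m * k) = gw (w i) c m * ψ i m * (gw (w i) c k * ψ i k)
      rw [hψ i hi m k h1]
      have h3 : gw (w i) c (m * k) = gw (w i) c m * gw (w i) c k := by
        unfold gw
        rw [Nat.Coprime.primeFactors_mul h2, prod_union h2.disjoint_primeFactors]
      rw [h3]
      ring)
    ((Tup ι z y).filter (fun d => (∀ i, (d i).Coprime R) ∧ ∀ i, i ∉ W → d i = 1))
    (by
      intro d
      rw [mem_filter]
      unfold Tup
      rw [mem_filter, Fintype.mem_piFinset]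
      constructor
      · rintro ⟨⟨h1, h2⟩, h3, h4⟩
        exact ⟨fun i => (hcop _).1 ⟨Nat.dvd_of_mem_divisors (h1 i), h3 i⟩, h2, h4⟩
      · rintro ⟨h1, h2, h3⟩
        exact ⟨⟨fun i => Nat.mem_divisors.2 ⟨((hcop _).2 (h1 i)).1, PP_ne_zero _ _⟩, h2⟩,
          fun i => ((hcop _).2 (h1 i)).2, h3⟩)
  rw [hE]
  -- the factors
  have hnW : (W.card : ℝ) ≤ n := by exact_mod_cast card_le_univ W
  have hpz : ∀ p ∈ PS z y, 2 * (c : ℝ) + 2 * n + 2 < (p : ℝ) := by
    intro p hp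
    have h1 := (mem_PS.1 hp).1.1
    have h2 : 2 * c + 2 * n + 2 < p := by omega
    exact_mod_cast h2
  have hn0 : (0 : ℝ) ≤ n := Nat.cast_nonneg _
  have hc0 : (0 : ℝ) ≤ c := Nat.cast_nonneg _
  have hsumw : ∑ i ∈ W, w i ≤ n / 2 := by
    calc ∑ i ∈ W, w i ≤ ∑ _i ∈ W, (1 / 2 : ℝ) := sum_le_sum fun i _ => (hw i).2
      _ = W.card * (1 / 2) := by rw [sum_const, nsmul_eq_mul]
      _ ≤ n / 2 := by linarith
  have hsumw0 : 0 ≤ ∑ i ∈ W, w i := sum_nonneg fun i _ => (hw i).1.le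
  have hterm : ∀ p ∈ T, ∀ i ∈ W, gw (w i) c p * ψ i p = w i * (φ i p / ((p : ℝ) - c)) := by
    intro p hp i hi
    have hp' := mem_filter.1 hp
    rw [hψφ i hi p hp'.1 hp'.2]
    unfold gw
    rw [(hTp p hp).primeFactors, prod_singleton]
    ring
  have hfac : ∀ p ∈ T, (1 + ∑ i ∈ W, gw (w i) c p * ψ i p) =
      1 + ∑ i ∈ W, w i * (φ i p / ((p : ℝ) - c)) := fun p hp => by
    rw [sum_congr rfl (hterm p hp)]
  have hpos : ∀ p ∈ T, 0 ≤ 1 + ∑ i ∈ W, w i * (φ i p / ((p : ℝ) - c)) := by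
    intro p hp
    have hp1 := hpz p (mem_filter.1 hp).1
    have hpc : 0 < (p : ℝ) - c := by linarith
    have h1 : ∀ i ∈ W, -(w i / ((p : ℝ) - c)) ≤ w i * (φ i p / ((p : ℝ) - c)) := by
      intro i hi
      have h2 := (abs_le.1 (hφ i hi p)).1
      have h3 := (hw i).1
      have h4 : -(w i / ((p : ℝ) - c)) = w i * (-1 / ((p : ℝ) - c)) := by ring
      rw [h4]
      exact mul_le_mul_of_nonneg_left (div_le_div_of_nonneg_right h2 hpc.le) h3.le
    have h5 := sum_le_sum h1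
    rw [sum_neg_distrib, ← sum_div] at h5
    have h6 : (∑ i ∈ W, w i) / ((p : ℝ) - c) ≤ 1 := by
      rw [div_le_one hpc]
      linarith
    linarith
  have hprod : ∏ p ∈ T, (1 + ∑ i ∈ W, gw (w i) c p * ψ i p) =
      ∏ p ∈ T, (1 + ∑ i ∈ W, w i * (φ i p / ((p : ℝ) - c))) := prod_congr rfl hfac
  rw [hprod, abs_of_nonneg (prod_nonneg hpos)]
  have hle1 : ∏ p ∈ T, (1 + ∑ i ∈ W, w i * (φ i p / ((p : ℝ) - c))) ≤
      Real.exp (∑ i ∈ W, w i * ∑ p ∈ T, φ i p / ((p : ℝ) - c)) := by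
    have h1 : ∑ i ∈ W, w i * ∑ p ∈ T, φ i p / ((p : ℝ) - c) =
        ∑ p ∈ T, ∑ i ∈ W, w i * (φ i p / ((p : ℝ) - c)) := by
      rw [sum_comm]
      exact sum_congr rfl fun i _ => by rw [mul_sum]
    rw [h1, Real.exp_sum]
    refine prod_le_prod hpos fun p _ => ?_
    have := Real.add_one_le_exp (∑ i ∈ W, w i * (φ i p / ((p : ℝ) - c)))
    linarith
  refine hle1.trans ?_
  -- the exponent
  have hsum1 : ∀ i ∈ W, ∑ p ∈ T, φ i p / ((p : ℝ) - c) ≤
      B i + ∑ p ∈ T', 1 / (p : ℝ) + 2 * c := by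
    intro i hi
    have h1 : ∑ p ∈ PS z y, φ i p / (p : ℝ) = ∑ p ∈ T', φ i p / (p : ℝ) +
        ∑ p ∈ T, φ i p / (p : ℝ) := (sum_filter_add_sum_filter_not _ _ _).symm
    have h2 : -∑ p ∈ T', 1 / (p : ℝ) ≤ ∑ p ∈ T', φ i p / (p : ℝ) := by
      rw [← sum_neg_distrib]
      refine sum_le_sum fun p _ => ?_
      rw [← neg_div]
      exact div_le_div_of_nonneg_right (abs_le.1 (hφ i hi p)).1 (Nat.cast_nonneg _)
    have h3 : ∑ p ∈ T, φ i p / ((p : ℝ) - c) - ∑ p ∈ T, φ i p / (p : ℝ) ≤ 2 * c := by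
      rw [← sum_sub_distrib]
      calc ∑ p ∈ T, (φ i p / ((p : ℝ) - c) - φ i p / (p : ℝ))
          ≤ ∑ p ∈ T, 2 * c * (1 / (p : ℝ) ^ 2) := by
            refine sum_le_sum fun p hp => ?_
            have hp1 := hpz p (mem_filter.1 hp).1
            have hpc : 0 < (p : ℝ) - c := by linarith
            have hp0 : 0 < (p : ℝ) := by linarith
            have e1 : φ i p / ((p : ℝ) - c) - φ i p / (p : ℝ) =
                φ i p * (c / ((p : ℝ) * ((p : ℝ) - c))) := by
              field_simp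
              ring
            rw [e1]
            have h4 : φ i p * (c / ((p : ℝ) * ((p : ℝ) - c))) ≤ 1 * (c / ((p : ℝ) * ((p : ℝ) - c))) :=
              mul_le_mul_of_nonneg_right (abs_le.1 (hφ i hi p)).2 (by positivity)
            refine h4.trans ?_
            rw [one_mul, mul_one_div, div_le_div_iff₀ (by positivity) (by positivity)]
            nlinarith [mul_nonneg hc0 hp0.le, mul_nonneg (mul_nonneg hc0 hp0.le)
              (by linarith : (0 : ℝ) ≤ (p : ℝ) - 2 * c)]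
        _ = 2 * c * ∑ p ∈ T, 1 / (p : ℝ) ^ 2 := by rw [mul_sum]
        _ ≤ 2 * c * 1 := by
            refine mul_le_mul_of_nonneg_left ?_ (by positivity)
            refine le_trans ?_ (tail_sq z y (by omega))
            exact sum_le_sum_of_subset_of_nonneg (filter_subset _ _) (fun _ _ _ => by positivity)
        _ = 2 * c := mul_one _
    have h4 := hB i hi
    linarith
  have hE1 : ∑ i ∈ W, w i * ∑ p ∈ T, φ i p / ((p : ℝ) - c) ≤
      n * c + ∑ i ∈ W, w i * B i + ∑ p ∈ T', (n / 2) * (1 / (p : ℝ)) := by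
    have h0 : 0 ≤ ∑ p ∈ T', 1 / (p : ℝ) := sum_nonneg fun _ _ => by positivity
    calc ∑ i ∈ W, w i * ∑ p ∈ T, φ i p / ((p : ℝ) - c)
        ≤ ∑ i ∈ W, w i * (B i + ∑ p ∈ T', 1 / (p : ℝ) + 2 * c) :=
          sum_le_sum fun i hi => mul_le_mul_of_nonneg_left (hsum1 i hi) (hw i).1.le
      _ = ∑ i ∈ W, w i * B i + (∑ i ∈ W, w i) * (∑ p ∈ T', 1 / (p : ℝ) + 2 * c) := by
          rw [sum_mul, ← sum_add_distrib]
          exact sum_congr rfl fun i _ => by ring
      _ ≤ ∑ i ∈ W, w i * B i + (n / 2) * (∑ p ∈ T', 1 / (p : ℝ) + 2 * c) := by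
          have := mul_le_mul_of_nonneg_right hsumw (by positivity :
            (0 : ℝ) ≤ ∑ p ∈ T', 1 / (p : ℝ) + 2 * c)
          linarith
      _ = _ := by rw [← mul_sum]; ring
  refine (Real.exp_le_exp.2 hE1).trans ?_
  have hsub : T' ⊆ R.primeFactors := by
    intro p hp
    have hp' := mem_filter.1 hp
    exact Nat.mem_primeFactors.2 ⟨(mem_PS.1 hp'.1).2, hp'.2, hR⟩
  have hfin : Real.exp (∑ p ∈ T', (n / 2) * (1 / (p : ℝ))) ≤
      ∏ p ∈ R.primeFactors, (1 + (n : ℝ) / (p : ℝ)) := by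
    rw [Real.exp_sum]
    calc ∏ p ∈ T', Real.exp (n / 2 * (1 / (p : ℝ))) ≤ ∏ p ∈ T', (1 + (n : ℝ) / (p : ℝ)) := by
          refine prod_le_prod (fun _ _ => (Real.exp_pos _).le) fun p hp => ?_
          have hp1 := hpz p (mem_filter.1 hp).1
          have hp0 : 0 < (p : ℝ) := by linarith
          refine (exp_le_one_add (by positivity) ?_).trans (le_of_eq (by ring))
          rw [mul_one_div, div_le_one hp0]
          linarith
      _ ≤ (∏ p ∈ R.primeFactors \ T', (1 + (n : ℝ) / (p : ℝ))) *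
            ∏ p ∈ T', (1 + (n : ℝ) / (p : ℝ)) := by
          refine le_mul_of_one_le_left (prod_nonneg fun _ _ => by positivity) ?_
          refine one_le_prod fun p _ => ?_
          have : (0 : ℝ) ≤ (n : ℝ) / (p : ℝ) := by positivity
          show (1 : ℝ) ≤ 1 + (n : ℝ) / (p : ℝ)
          linarith
      _ = ∏ p ∈ R.primeFactors, (1 + (n : ℝ) / (p : ℝ)) := prod_sdiff hsub
  rw [Real.exp_add, Real.exp_add]
  exact mul_le_mul_of_nonneg_left hfin (by positivity)

end Pool.Agent.W583.RT
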